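import Pool.Agent.E8helper19.QC.Stm

set_option autoImplicit false
open MeasureTheory Filter Topology SchwartzMap FourierTransform Laplacian
open scoped ContDiff ENNReal Real
open Pool.Agent.E8helper19.QC

namespace Pool.Agent.E8helper38.QCM

/-- remainder of the exponential series of `c * u` -/
noncomputable def Rm (c : ℂ) (j : ℕ) (u : ℝ) : ℂ :=
  Complex.exp (c * u) - ∑ i ∈ Finset.range j, (c * u) ^ i / (i.factorial : ℂ)

lemma Rm_succ (c : ℂ) (j : ℕ) (u : ℝ) : Rm c j u = (c * u) ^ j / (j.factorial : ℂ) + Rm c (j+1) u := by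
  unfold Rm
  rw [Finset.sum_range_succ]
  ring

lemma Rm_deriv (c : ℂ) (j : ℕ) (u : ℝ) : HasDerivAt (Rm c (j+1)) (c * Rm c j u) u := by
  have h0 : HasDerivAt (fun u : ℝ => c * (u : ℂ)) c u := by
    simpa using (Complex.ofRealCLM.hasDerivAt (x := u)).const_mul c
  have h1 := h0.cexp
  have h2 : HasDerivAt (fun u : ℝ => ∑ i ∈ Finset.range (j+1), (c * (u:ℂ)) ^ i / (i.factorial : ℂ))
      (∑ i ∈ Finset.range (j+1), ((i : ℂ) * (c * u) ^ (i-1) * c) / (i.factorial : ℂ)) u := by
    apply HasDerivAt.fun_sum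
    intro i _
    exact (h0.pow i).div_const _
  have h3 := h1.sub h2
  refine HasDerivAt.congr_deriv (f := Rm c (j+1)) h3 ?_
  unfold Rm
  rw [Finset.sum_range_succ', mul_sub, Finset.mul_sum]
  simp only [Nat.cast_zero, zero_mul, zero_div, add_zero]
  rw [mul_comm c (Complex.exp _)]
  congr 1
  apply Finset.sum_congr rfl
  intro i _
  have : ((i.factorial : ℕ) : ℂ) ≠ 0 := by exact_mod_cast i.factorial_ne_zero
  have h4 : ((i : ℂ) + 1) ≠ 0 := by exact_mod_cast Nat.succ_ne_zero i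
  rw [Nat.factorial_succ]
  push_cast
  field_simp

lemma Rm_bound (c : ℂ) (hc : ∀ u : ℝ, ‖Complex.exp (c * u)‖ ≤ 1) (j : ℕ) :
    ∀ (u : ℝ), 0 ≤ u → ‖Rm c j u‖ ≤ ‖c‖ ^ j * u ^ j / j.factorial := by
  induction j with
  | zero =>
    intro u _
    simpa [Rm] using hc u
  | succ j ih =>
    intro u hu
    have key := image_norm_le_of_norm_deriv_right_le_deriv_boundary (a := 0) (b := u)
      (f := Rm c (j+1)) (f' := fun x => c * Rm c j x)
      (B := fun x => ‖c‖ ^ (j+1) * x ^ (j+1) / ((j+1).factorial : ℝ))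
      (B' := fun x => ‖c‖ * (‖c‖ ^ j * x ^ j / (j.factorial : ℝ)))
      (fun x _ => (Rm_deriv c j x).continuousAt.continuousWithinAt)
      (fun x _ => (Rm_deriv c j x).hasDerivWithinAt)
      (by
        have : Rm c (j+1) 0 = 0 := by
          unfold Rm
          rw [Finset.sum_range_succ']
          simp
        rw [this]; simp)
      (by
        intro x
        have h := ((hasDerivAt_pow (j+1) x).const_mul (‖c‖ ^ (j+1))).div_const ((j+1).factorial : ℝ)
        refine h.congr_deriv ?_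
        rw [Nat.factorial_succ]
        have : ((j.factorial : ℕ) : ℝ) ≠ 0 := by exact_mod_cast j.factorial_ne_zero
        push_cast
        field_simp
        ring)
      (by
        intro x hx
        rw [norm_mul]
        exact mul_le_mul_of_nonneg_left (ih x hx.1) (norm_nonneg _))
    exact key ⟨hu, le_refl u⟩

/-- the frequency -/
noncomputable def cc {n : ℕ} (τ x : E n) : ℂ := ((-2 * π * inner ℝ x τ : ℝ) : ℂ) * Complex.I

lemma cc_exp {n : ℕ} (τ x : E n) (u : ℝ) : ‖Complex.exp (cc τ x * u)‖ ≤ 1 := by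
  unfold cc
  have : ((-2 * π * inner ℝ x τ : ℝ) : ℂ) * Complex.I * u = ((-2 * π * inner ℝ x τ * u : ℝ) : ℂ) * Complex.I := by
    push_cast; ring
  rw [this, Complex.norm_exp_ofReal_mul_I]

lemma cc_cont {n : ℕ} (τ : E n) : Continuous (cc τ) := by
  unfold cc
  fun_prop

lemma cc_norm {n : ℕ} (τ x : E n) : ‖cc τ x‖ ≤ 2 * π * ‖τ‖ * ‖x‖ := by
  unfold cc
  rw [norm_mul, Complex.norm_I, mul_one, Complex.norm_real, norm_mul, norm_mul]
  have h := norm_inner_le_norm (𝕜 := ℝ) x τ
  have h1 : ‖(-2 : ℝ)‖ * ‖(π : ℝ)‖ = 2 * π := by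
    rw [Real.norm_eq_abs, Real.norm_eq_abs, abs_of_pos Real.pi_pos]; norm_num
  rw [h1]
  have := Real.pi_pos
  calc 2 * π * ‖inner ℝ x τ‖ ≤ 2 * π * (‖x‖ * ‖τ‖) := by gcongr
    _ = _ := by ring

lemma step {n N : ℕ} (f : E n → ℂ) (hf : Continuous f)
    (hI : ∀ i ≤ N, Integrable (fun x => ‖x‖ ^ i * ‖f x‖)) (τ : E n) (K : ℝ)
    (hF : ∀ r : ℝ, 0 < r → ‖∫ x, Complex.exp (cc τ x * r) * f x‖ ≤ K * r ^ (N+1)) :
    ∀ j ≤ N, ∫ x, (cc τ x) ^ j * f x = 0 := by
  have hInt : ∀ i ≤ N, Integrable (fun x => (cc τ x) ^ i * f x) := by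
    intro i hi
    refine ((hI i hi).const_mul ((2 * π * ‖τ‖) ^ i)).mono'
      (((cc_cont τ).pow i).mul hf).aestronglyMeasurable (Eventually.of_forall fun x => ?_)
    rw [norm_mul, norm_pow]
    calc ‖cc τ x‖ ^ i * ‖f x‖ ≤ (2 * π * ‖τ‖ * ‖x‖) ^ i * ‖f x‖ := by
          gcongr
          exact cc_norm τ x
      _ = _ := by rw [mul_pow]; ring
  have hf1 : Integrable f := by
    have := hInt 0 (Nat.zero_le _)
    simpa using this
  have hexp : ∀ r : ℝ, Integrable (fun x => Complex.exp (cc τ x * r) * f x) := by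
    intro r
    refine hf1.norm.mono' ?_ (Eventually.of_forall fun x => ?_)
    · exact (Continuous.mul (by have := cc_cont τ; fun_prop) hf).aestronglyMeasurable
    · rw [norm_mul]
      calc _ ≤ 1 * ‖f x‖ := by
            gcongr
            exact cc_exp τ x r
        _ = _ := one_mul _
  intro j
  induction j using Nat.strong_induction_on with
  | _ j ih =>
  intro hj
  -- the difference quotients
  set G : ℝ → E n → ℂ := fun r x => ((r : ℂ) ^ j)⁻¹ * Rm (cc τ x) j r * f x with hG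
  have hGint : ∀ r : ℝ, 0 < r → ∫ x, G r x = ((r : ℂ) ^ j)⁻¹ * ∫ x, Complex.exp (cc τ x * r) * f x := by
    intro r hr
    have e1 : ∀ x, G r x = ((r : ℂ) ^ j)⁻¹ * (Complex.exp (cc τ x * r) * f x -
        ∑ i ∈ Finset.range j, ((r : ℂ) ^ i / (i.factorial : ℂ)) * ((cc τ x) ^ i * f x)) := by
      intro x
      simp only [hG, Rm]
      rw [mul_assoc, sub_mul, Finset.sum_mul]
      congr 2
      apply Finset.sum_congr rfl
      intro i _
      rw [mul_pow]; ring
    simp_rw [e1]
    rw [integral_const_mul, integral_sub (hexp r) ?_, integral_finsetSum]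
    · rw [Finset.sum_eq_zero, sub_zero]
      intro i hi
      rw [integral_const_mul, ih i (Finset.mem_range.1 hi) ((Finset.mem_range.1 hi).le.trans hj), mul_zero]
    · intro i hi
      exact (hInt i ((Finset.mem_range.1 hi).le.trans hj)).const_mul _
    · exact integrable_finsetSum _ fun i hi =>
        (hInt i ((Finset.mem_range.1 hi).le.trans hj)).const_mul _
  have hlim0 : Tendsto (fun r => ∫ x, G r x) (𝓝[>] (0 : ℝ)) (𝓝 0) := by
    have h1 : Tendsto (fun r : ℝ => K * r ^ (N + 1 - j)) (𝓝[>] (0 : ℝ)) (𝓝 0) := by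
      have : Continuous (fun r : ℝ => K * r ^ (N + 1 - j)) := by fun_prop
      have h2 := (this.tendsto 0).mono_left (nhdsWithin_le_nhds (s := Set.Ioi (0:ℝ)))
      simpa [show N + 1 - j ≠ 0 by omega] using h2
    refine squeeze_zero_norm' ?_ h1
    filter_upwards [self_mem_nhdsWithin] with r hr
    have hr' : (0 : ℝ) < r := hr
    rw [hGint r hr', norm_mul, norm_inv, norm_pow, Complex.norm_real, Real.norm_of_nonneg hr'.le]
    calc (r ^ j)⁻¹ * ‖∫ x, Complex.exp (cc τ x * r) * f x‖ ≤ (r ^ j)⁻¹ * (K * r ^ (N+1)) := by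
          gcongr
          exact hF r hr'
      _ = K * r ^ (N + 1 - j) := by
          have : r ^ (N+1) = r ^ (N+1-j) * r ^ j := by rw [← pow_add]; congr 1; omega
          rw [this]
          field_simp
  have hlim1 : Tendsto (fun r => ∫ x, G r x) (𝓝[>] (0 : ℝ))
      (𝓝 (∫ x, (cc τ x) ^ j / (j.factorial : ℂ) * f x)) := by
    refine tendsto_integral_filter_of_dominated_convergence
      (fun x => ‖(cc τ x) ^ j * f x‖ / j.factorial) ?_ ?_ ((hInt j hj).norm.div_const _) ?_
    · refine Eventually.of_forall fun r => ?_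
      refine Continuous.aestronglyMeasurable ?_
      simp only [hG, Rm]
      have := cc_cont τ
      fun_prop
    · filter_upwards [self_mem_nhdsWithin] with r hr
      have hr' : (0 : ℝ) < r := hr
      refine Eventually.of_forall fun x => ?_
      simp only [hG]
      rw [norm_mul, norm_mul, norm_inv, norm_pow, Complex.norm_real, Real.norm_of_nonneg hr'.le,
        norm_mul, norm_pow]
      have hb := Rm_bound (cc τ x) (cc_exp τ x) j r hr'.le
      calc (r ^ j)⁻¹ * ‖Rm (cc τ x) j r‖ * ‖f x‖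
          ≤ (r ^ j)⁻¹ * (‖cc τ x‖ ^ j * r ^ j / j.factorial) * ‖f x‖ := by gcongr
        _ = ‖cc τ x‖ ^ j * ‖f x‖ / j.factorial := by field_simp
    · refine Eventually.of_forall fun x => ?_
      refine Tendsto.mul_const _ ?_
      have e2 : ∀ᶠ r : ℝ in 𝓝[>] (0 : ℝ), (cc τ x) ^ j / (j.factorial : ℂ) +
          ((r : ℂ) ^ j)⁻¹ * Rm (cc τ x) (j+1) r = ((r : ℂ) ^ j)⁻¹ * Rm (cc τ x) j r := by
        filter_upwards [self_mem_nhdsWithin] with r hr
        have hr' : (r : ℂ) ≠ 0 := by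
          have : (0 : ℝ) < r := hr
          exact_mod_cast this.ne'
        rw [Rm_succ (cc τ x) j r, mul_add, mul_pow]
        congr 1
        field_simp
      refine Tendsto.congr' e2 ?_
      have e3 : Tendsto (fun r : ℝ => ((r : ℂ) ^ j)⁻¹ * Rm (cc τ x) (j+1) r) (𝓝[>] (0 : ℝ)) (𝓝 0) := by
        have h1 : Tendsto (fun r : ℝ => ‖cc τ x‖ ^ (j+1) / ((j+1).factorial) * r) (𝓝[>] (0 : ℝ)) (𝓝 0) := by
          have : Continuous (fun r : ℝ => ‖cc τ x‖ ^ (j+1) / ((j+1).factorial) * r) := by fun_prop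
          have h2 := (this.tendsto 0).mono_left (nhdsWithin_le_nhds (s := Set.Ioi (0:ℝ)))
          simpa using h2
        refine squeeze_zero_norm' ?_ h1
        filter_upwards [self_mem_nhdsWithin] with r hr
        have hr' : (0 : ℝ) < r := hr
        rw [norm_mul, norm_inv, norm_pow, Complex.norm_real, Real.norm_of_nonneg hr'.le]
        have hb := Rm_bound (cc τ x) (cc_exp τ x) (j+1) r hr'.le
        calc (r ^ j)⁻¹ * ‖Rm (cc τ x) (j+1) r‖
            ≤ (r ^ j)⁻¹ * (‖cc τ x‖ ^ (j+1) * r ^ (j+1) / (j+1).factorial) := by gcongr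
          _ = ‖cc τ x‖ ^ (j+1) / (j+1).factorial * r := by rw [pow_succ r j]; field_simp
      simpa using e3.const_add ((cc τ x) ^ j / (j.factorial : ℂ))
  have huniq := tendsto_nhds_unique hlim0 hlim1
  have e4 : ∀ x, (cc τ x) ^ j / (j.factorial : ℂ) * f x = (j.factorial : ℂ)⁻¹ * ((cc τ x) ^ j * f x) := by
    intro x; ring
  simp_rw [e4] at huniq
  rw [integral_const_mul] at huniq
  have hfac : ((j.factorial : ℕ) : ℂ)⁻¹ ≠ 0 := inv_ne_zero (by exact_mod_cast j.factorial_ne_zero)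
  exact (mul_eq_zero.1 huniq.symm).resolve_left hfac

/-- from powers of linear forms to monomials -/
lemma mono {n j : ℕ} (f : E n → ℂ)
    (hI : ∀ k : Fin n → ℕ, k ∈ Finset.piAntidiag Finset.univ j →
      Integrable (fun x : E n => (∏ i, (x i : ℂ) ^ k i) * f x))
    (hf : ∀ τ : E n, ∫ x, ((inner ℝ x τ : ℝ) : ℂ) ^ j * f x = 0) :
    ∀ k : Fin n → ℕ, k ∈ Finset.piAntidiag Finset.univ j →
      ∫ x : E n, (∏ i, (x i : ℂ) ^ k i) * f x = 0 := by
  classical
  set c : (Fin n → ℕ) → ℂ := fun k => ∫ x : E n, (∏ i, (x i : ℂ) ^ k i) * f x with hc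
  set P : MvPolynomial (Fin n) ℂ := ∑ k ∈ Finset.piAntidiag Finset.univ j,
    MvPolynomial.monomial (Finsupp.equivFunOnFinite.symm k) ((Nat.multinomial Finset.univ k : ℂ) * c k)
    with hP
  have hP0 : P = 0 := by
    refine MvPolynomial.funext_set (fun _ => Set.range ((↑) : ℝ → ℂ))
      (fun _ => Set.infinite_range_of_injective Complex.ofReal_injective) ?_
    intro t ht
    choose τ hτ using fun i => ht i (Set.mem_univ i)
    have h1 := hf (WithLp.toLp 2 τ)
    rw [map_zero, hP, map_sum]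
    rw [← h1]
    have e1 : ∀ x : E n, ((inner ℝ x (WithLp.toLp 2 τ : E n) : ℝ) : ℂ) ^ j * f x =
        ∑ k ∈ Finset.piAntidiag Finset.univ j, ((Nat.multinomial Finset.univ k : ℂ) *
          ∏ i, t i ^ k i) * ((∏ i, (x i : ℂ) ^ k i) * f x) := by
      intro x
      have e2 : ((inner ℝ x (WithLp.toLp 2 τ : E n) : ℝ) : ℂ) = ∑ i, t i * (x i : ℂ) := by
        rw [PiLp.inner_apply]
        push_cast
        apply Finset.sum_congr rfl
        intro i _
        simp only [← hτ i]
        simp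
      rw [e2, Finset.sum_pow_eq_sum_piAntidiag, Finset.sum_mul]
      apply Finset.sum_congr rfl
      intro k _
      simp_rw [mul_pow]
      rw [Finset.prod_mul_distrib]
      ring
    simp_rw [e1]
    rw [integral_finsetSum _ fun k hk => (hI k hk).const_mul _]
    apply Finset.sum_congr rfl
    intro k hk
    rw [integral_const_mul, MvPolynomial.eval_monomial, Finsupp.prod_fintype _ _ (by simp)]
    simp only [Finsupp.equivFunOnFinite_symm_apply_apply]
    simp only [hc]
    ring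
  intro k hk
  have h2 : MvPolynomial.coeff (Finsupp.equivFunOnFinite.symm k) P = 0 := by rw [hP0]; simp
  rw [hP, MvPolynomial.coeff_sum] at h2
  simp only [MvPolynomial.coeff_monomial] at h2
  rw [Finset.sum_eq_single k] at h2
  · rw [if_pos rfl] at h2
    have h3 : (Nat.multinomial Finset.univ k : ℂ) ≠ 0 := by
      exact_mod_cast (Nat.multinomial_pos _ _).ne'
    exact (mul_eq_zero.1 h2).resolve_left h3
  · intro b _ hb
    rw [if_neg]
    intro h
    exact hb (Finsupp.equivFunOnFinite.symm.injective h)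
  · intro h; exact absurd hk h

theorem t_MOM (h : S_DEC) : S_MOM := by
  intro n φ p hn hp
  obtain ⟨hc, -, hint⟩ := h n φ hn
  set f : E n → ℂ := FL n φ with hfdef
  obtain ⟨N, rfl⟩ : ∃ N, n = N + 1 := ⟨n - 1, by omega⟩
  simp only [Nat.add_sub_cancel] at hp hint
  -- integrability of the weights
  have hI : ∀ i ≤ N, Integrable (fun x => ‖x‖ ^ i * ‖f x‖) := by
    intro i hi
    refine hint.mono' ((continuous_norm.pow i).mul hc.norm).aestronglyMeasurable
      (Eventually.of_forall fun x => ?_)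
    rw [Real.norm_of_nonneg (by positivity)]
    gcongr
    calc ‖x‖ ^ i ≤ (1 + ‖x‖) ^ i := by gcongr; linarith [norm_nonneg x]
      _ ≤ (1 + ‖x‖) ^ N := pow_le_pow_right₀ (by linarith [norm_nonneg x]) hi
  have hf1 : Integrable f := by
    have := hI 0 (Nat.zero_le _)
    refine (integrable_norm_iff hc.aestronglyMeasurable).1 ?_
    simpa using this
  -- the Fourier transform
  set g : E (N+1) → ℂ := fun ξ => (((2 * π * ‖ξ‖) ^ (N+1) : ℝ) : ℂ) * 𝓕 (φ : E (N+1) → ℂ) ξ with hg
  have hFφ : 𝓕 (φ : E (N+1) → ℂ) = (𝓕 φ : 𝓢(E (N+1), ℂ)) := by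
    rw [SchwartzMap.fourier_coe]
  have hgc : Continuous g := by
    rw [hg, hFφ]
    have := (𝓕 φ : 𝓢(E (N+1), ℂ)).continuous
    fun_prop
  have hgi : Integrable g := by
    have h1 := ((𝓕 φ : 𝓢(E (N+1), ℂ)).integrable_pow_mul volume (N+1)).const_mul ((2 * π) ^ (N+1))
    refine h1.mono' hgc.aestronglyMeasurable (Eventually.of_forall fun ξ => ?_)
    rw [hg, hFφ]
    simp only [norm_mul, Complex.norm_real]
    rw [Real.norm_of_nonneg (by have := Real.pi_pos; positivity), mul_pow]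
    exact le_of_eq (by ring)
  have hfg : f = 𝓕⁻ g := rfl
  have hFg : Integrable (𝓕 g) := by
    have e : 𝓕 g = fun x => f (-x) := by
      ext x
      rw [hfg, Real.fourierInv_eq_fourier_neg, neg_neg]
    rw [e]
    exact hf1.comp_neg
  have hFf : 𝓕 f = g := by
    rw [hfg]
    exact hgc.fourier_fourierInv_eq hgi hFg
  -- boundedness of the Fourier transform of `φ`
  obtain ⟨K, hK⟩ : ∃ K : ℝ, ∀ ξ, ‖𝓕 (φ : E (N+1) → ℂ) ξ‖ ≤ K := by
    rw [hFφ]
    obtain ⟨K, hK⟩ := (𝓕 φ : 𝓢(E (N+1), ℂ)).decay 0 0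
    exact ⟨K, fun ξ => by simpa using hK.2 ξ⟩
  have hpow : ∀ τ : E (N+1), ∀ j ≤ N, ∫ x, (cc τ x) ^ j * f x = 0 := by
    intro τ
    refine step f hc hI τ ((2 * π * ‖τ‖) ^ (N+1) * K) ?_
    intro r hr
    have e : ∫ x, Complex.exp (cc τ x * r) * f x = 𝓕 f (r • τ) := by
      rw [Real.fourier_eq']
      congr 1
      ext x
      rw [smul_eq_mul]
      congr 2
      unfold cc
      rw [inner_smul_right]
      push_cast
      ring
    rw [e, hFf]
    simp only [hg, norm_mul, Complex.norm_real]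
    rw [Real.norm_of_nonneg (by have := Real.pi_pos; positivity), norm_smul, Real.norm_of_nonneg hr.le]
    calc (2 * π * (r * ‖τ‖)) ^ (N+1) * ‖𝓕 (φ : E (N+1) → ℂ) (r • τ)‖
        ≤ (2 * π * (r * ‖τ‖)) ^ (N+1) * K := by
          have := Real.pi_pos
          gcongr
          exact hK _
      _ = _ := by rw [show 2 * π * (r * ‖τ‖) = (2 * π * ‖τ‖) * r by ring, mul_pow]; ring
  have hpow' : ∀ j ≤ N, ∀ τ : E (N+1), ∫ x, ((inner ℝ x τ : ℝ) : ℂ) ^ j * f x = 0 := by
    intro j hj τ
    have h1 := hpow τ j hj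
    have e : ∀ x, (cc τ x) ^ j * f x = (-2 * π * Complex.I) ^ j * (((inner ℝ x τ : ℝ) : ℂ) ^ j * f x) := by
      intro x
      unfold cc
      rw [← mul_assoc, ← mul_pow]
      congr 2
      push_cast
      ring
    simp_rw [e] at h1
    rw [integral_const_mul] at h1
    refine (mul_eq_zero.1 h1).resolve_left (pow_ne_zero _ ?_)
    simp [Real.pi_ne_zero]
  -- monomials
  have hprod : ∀ (k : Fin (N+1) → ℕ) (x : E (N+1)), ‖∏ i, (x i : ℂ) ^ k i‖ ≤ ‖x‖ ^ (∑ i, k i) := by
    intro k x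
    rw [norm_prod, ← Finset.prod_pow_eq_pow_sum]
    apply Finset.prod_le_prod (fun i _ => norm_nonneg _)
    intro i _
    rw [norm_pow, Complex.norm_real]
    gcongr
    exact PiLp.norm_apply_le x i
  have hmI : ∀ k : Fin (N+1) → ℕ, ∑ i, k i ≤ N →
      Integrable (fun x : E (N+1) => (∏ i, (x i : ℂ) ^ k i) * f x) := by
    intro k hk
    refine (hI _ hk).mono' ?_ (Eventually.of_forall fun x => ?_)
    · refine Continuous.aestronglyMeasurable (Continuous.mul ?_ hc)
      fun_prop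
    · rw [norm_mul]
      gcongr
      exact hprod k x
  have hm0 : ∀ k : Fin (N+1) → ℕ, ∑ i, k i ≤ N →
      ∫ x : E (N+1), (∏ i, (x i : ℂ) ^ k i) * f x = 0 := by
    intro k hk
    refine mono (j := ∑ i, k i) f ?_ (hpow' _ hk) k ?_
    · intro k' hk'
      rw [Finset.mem_piAntidiag] at hk'
      exact hmI k' (by rw [hk'.1]; exact hk)
    · rw [Finset.mem_piAntidiag]
      exact ⟨rfl, fun i _ => Finset.mem_univ i⟩
  -- the polynomial
  have hdeg : ∀ β ∈ p.support, ∑ i, β i ≤ N := by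
    intro β hβ
    have := MvPolynomial.le_totalDegree hβ
    rw [Finsupp.sum_fintype _ _ (by simp)] at this
    exact this.trans hp
  have e : ∀ x : E (N+1), (pv p x : ℂ) * f x =
      ∑ β ∈ p.support, ((p.coeff β : ℝ) : ℂ) * ((∏ i, (x i : ℂ) ^ β i) * f x) := by
    intro x
    unfold pv
    rw [MvPolynomial.eval_eq']
    push_cast
    rw [Finset.sum_mul]
    apply Finset.sum_congr rfl
    intro β _
    ring
  simp_rw [e]
  rw [integral_finsetSum _ fun β hβ => (hmI _ (hdeg β hβ)).const_mul _]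
  apply Finset.sum_eq_zero
  intro β hβ
  rw [integral_const_mul, hm0 _ (hdeg β hβ), mul_zero]

end Pool.Agent.E8helper38.QCM
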